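import Pool.Agent.Helper54.LM.Defs
import Pool.Agent.Helper42.LK.KLB
import Pool.Agent.Helper84.LK.KPG
import Pool.Agent.Helper33.LK.KAD
import Pool.Agent.Helper71.LK.KMN

/-!
# Several independent points: the local package (MP_9a3c31_nt)

Port of `Pool.Agent.Helper42.LK.KLB` to lattices of points.
-/

open Filter Topology NumberField

namespace Pool.Agent.Helper54.LM

open Pool.Agent.Helper42.LS Pool.Agent.Helper42.LK

/-- pairing with the zero vector -/
theorem llb_pr_zero {m : ℕ} (k : Fin m → ℤ) : pr k (fun _ => (0 : ℝ)) = 0 := by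
  unfold pr
  simp

theorem st_LLB (hPM : ST_LPM) (hSC : ST_LSC) (hSQ : ST_LSQ) : ST_LLB := by
  intro F _ _ v h2 h3 A₀ B₀ hD₀ m x₀ y₀ hg₀
  obtain ⟨u, hu0, huA, huB, hmin, hdl, -⟩ := st_KMN F v A₀ B₀ hD₀
  obtain ⟨h6912, h16, h27, h4⟩ := klb_ord_num v h2 h3
  have hg := hSC F m A₀ B₀ u x₀ y₀ hu0 hg₀
  have hlogD := klb_log_dsc v hu0 hD₀
  have hD : dsc (u ^ 4 * A₀) (u ^ 6 * B₀) ≠ 0 := by
    rw [klb_dsc]; exact mul_ne_zero (pow_ne_zero _ hu0) hD₀
  have hlq := v.log_q_pos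
  -- a potential for the minimal equation suffices
  suffices hkey : ∃ (t : Fin m → ℝ) (N : ℕ), 0 ≤ dl v.nr A₀ B₀ ∧ 1 ≤ N ∧
      (∀ i, ∃ a : ℤ, (N : ℝ) * t i = a) ∧
      (dl v.nr A₀ B₀ ≠ 0 → N * Real.log v.q ≤ dl v.nr A₀ B₀) ∧
      ∀ k : Fin m → ℤ, k ≠ 0 → ∃ U : ℕ → ℝ,
      (∀ n : ℕ, 1 ≤ n → 4 * U n - 0 ≤ U (2 * n) +
        Real.log (v.nr (4 * cu (u ^ 4 * A₀) (u ^ 6 * B₀) (u ^ 2 * x₀ (n • k))))) ∧
      (∃ C : ℝ, ∀ n : ℕ, 1 ≤ n → U n ≤ Real.log (max (v.nr (u ^ 2 * x₀ (n • k))) 1) + C) ∧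
      (∀ n : ℕ, 1 ≤ n → dl v.nr A₀ B₀ * B2 (n * pr k t) +
        1 / 6 * Real.log (v.nr (dsc (u ^ 4 * A₀) (u ^ 6 * B₀))) ≤ U (12 * n)) by
    obtain ⟨t, N, h5, h6, h7, h8, h9⟩ := hkey
    refine ⟨t, N, h5, h6, h7, h8, fun k hk => ?_⟩
    obtain ⟨U, h10, h11, h12⟩ := h9 k hk
    obtain ⟨h13, h14⟩ := klb_scale v (u := u) hu0 (hSQ F m 0 A₀ B₀ x₀ y₀ hg₀ k hk) h10 h11
    refine ⟨fun n => U n - 2 * Real.log (v.nr u), ?_, h14, ?_⟩
    · intro n hn; have := h13 n hn; linarith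
    · intro n hn
      have := h12 n hn
      rw [hlogD] at this
      simp only
      linarith
  set A := u ^ 4 * A₀ with hA
  set B := u ^ 6 * B₀ with hB
  have hAint : v.nr A ≤ 1 := huA
  have hBint : v.nr B ≤ 1 := huB
  -- the discriminant is integral
  have hDint : v.nr (dsc A B) ≤ 1 := by
    unfold dsc
    refine (v.nr_add_le _ _).trans (max_le ?_ ?_)
    · rw [v.nr_mul, v.nr_pow]
      exact mul_le_one₀ (v.nr_ofNat 4) (pow_nonneg (v.nr_nonneg _) _)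
        (pow_le_one₀ (v.nr_nonneg _) hAint)
    · rw [v.nr_mul, v.nr_pow]
      exact mul_le_one₀ (v.nr_ofNat 27) (pow_nonneg (v.nr_nonneg _) _)
        (pow_le_one₀ (v.nr_nonneg _) hBint)
  have hordD : 0 ≤ v.ord (dsc A B) := (v.nr_le_one_iff hD).1 hDint
  obtain ⟨N, hN⟩ : ∃ N : ℕ, v.ord (dsc A B) = N := ⟨(v.ord (dsc A B)).toNat, by
    rw [Int.toNat_of_nonneg hordD]⟩
  have hdlN : dl v.nr A₀ B₀ = N * Real.log v.q := by
    rw [hdl, v.log_nr hD, hN]; push_cast; ring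
  have hlogDN : Real.log (v.nr (dsc A B)) = -(N * Real.log v.q) := by
    rw [v.log_nr hD, hN]; push_cast; ring
  have hdl0 : 0 ≤ dl v.nr A₀ B₀ := by rw [hdlN]; positivity
  -- the sequences of multiples for the minimal equation
  have hgk : ∀ k : Fin m → ℤ, k ≠ 0 → GSeq (0 : F) A B (fun n : ℕ => u ^ 2 * x₀ (n • k))
      (fun n : ℕ => u ^ 3 * y₀ (n • k)) := fun k hk => hSQ F m 0 A B _ _ hg k hk
  -- the part with t = 0
  have hzero : (∀ k : Fin m → ℤ, k ≠ 0 → ∃ U : ℕ → ℝ, (∀ n : ℕ, 1 ≤ n → 4 * U n ≤ U (2 * n) +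
        Real.log (v.nr (4 * cu A B (u ^ 2 * x₀ (n • k))))) ∧
      (∃ C : ℝ, ∀ n : ℕ, 1 ≤ n → U n ≤ Real.log (max (v.nr (u ^ 2 * x₀ (n • k))) 1) + C) ∧
      (∀ n : ℕ, 1 ≤ n → 0 ≤ U (12 * n))) →
      ∃ (t : Fin m → ℝ) (N : ℕ), 0 ≤ dl v.nr A₀ B₀ ∧ 1 ≤ N ∧
      (∀ i, ∃ a : ℤ, (N : ℝ) * t i = a) ∧
      (dl v.nr A₀ B₀ ≠ 0 → N * Real.log v.q ≤ dl v.nr A₀ B₀) ∧
      ∀ k : Fin m → ℤ, k ≠ 0 → ∃ U : ℕ → ℝ,
      (∀ n : ℕ, 1 ≤ n → 4 * U n - 0 ≤ U (2 * n) +
        Real.log (v.nr (4 * cu A B (u ^ 2 * x₀ (n • k))))) ∧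
      (∃ C : ℝ, ∀ n : ℕ, 1 ≤ n → U n ≤ Real.log (max (v.nr (u ^ 2 * x₀ (n • k))) 1) + C) ∧
      (∀ n : ℕ, 1 ≤ n → dl v.nr A₀ B₀ * B2 (n * pr k t) +
        1 / 6 * Real.log (v.nr (dsc A B)) ≤ U (12 * n)) := by
    intro hU
    refine ⟨fun _ => 0, 1, hdl0, le_rfl, fun _ => ⟨0, by simp⟩, ?_, fun k hk => ?_⟩
    · intro h5
      rw [hdlN] at h5 ⊢
      have hN0 : N ≠ 0 := by rintro rfl; simp at h5
      have hN1 : (1 : ℝ) ≤ N := by exact_mod_cast Nat.one_le_iff_ne_zero.2 hN0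
      push_cast
      nlinarith
    · obtain ⟨U, hU1, hU2, hU3⟩ := hU k hk
      refine ⟨U, ?_, hU2, ?_⟩
      · intro n hn; have := hU1 n hn; linarith
      · intro n hn
        have h5 := hU3 n hn
        rw [llb_pr_zero, mul_zero, klb_B2_zero, hdlN, hlogDN]
        linarith
  by_cases hA1 : v.nr A = 1
  · have hA0 : A ≠ 0 := by
      intro h; rw [h, v.nr_zero] at hA1; exact zero_ne_one hA1
    have hordA : v.ord A = 0 := (v.nr_eq_one_iff hA0).1 hA1
    by_cases hN0 : N = 0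
    · -- good reduction
      have hD1 : v.nr (dsc A B) = 1 := (v.nr_eq_one_iff hD).2 (by rw [hN, hN0]; rfl)
      apply hzero
      intro k hk
      obtain ⟨U, hU1, hU2, hU3, -⟩ := st_KPG F v h2 h3 A B hD (by
        rw [hD1, v.nr_mul, v.nr_pow]
        exact mul_le_one₀ (v.nr_ofNat 6912) (pow_nonneg (v.nr_nonneg _) _)
          (pow_le_one₀ (v.nr_nonneg _) hAint)) _ _ (hgk k hk)
      refine ⟨U, hU1, hU2, fun n hn => ?_⟩
      have := hU3 (12 * n) (by omega)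
      rw [hD1, Real.log_one, mul_zero] at this
      exact this
    · -- multiplicative reduction
      have hN1 : 1 ≤ N := Nat.one_le_iff_ne_zero.2 hN0
      have hj : v.ord (6912 * A ^ 3 / dsc A B) = -(N : ℤ) := by
        rw [v.ord_div (mul_ne_zero (by norm_num) (pow_ne_zero _ hA0)) hD,
          v.ord_mul _ _ (by norm_num) (pow_ne_zero _ hA0), v.ord_pow, h6912, hordA, hN]
        simp
      obtain ⟨r, a, hr, hUk⟩ := hPM F v N hN1 A B hD hj m _ _ hg
      have hr0 : r = 0 := by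
        rw [v.ord_mul _ _ (by norm_num) hD, h16, hN] at hr
        omega
      have hNR : (0 : ℝ) < N := by exact_mod_cast hN1
      refine ⟨fun i => 6 * a i / N, N, hdl0, hN1, fun i => ⟨6 * a i, by push_cast; field_simp⟩,
        ?_, fun k hk => ?_⟩
      · intro _; rw [hdlN]
      · obtain ⟨U, hU1, hU2, hU3, -⟩ := hUk k hk
        refine ⟨U, ?_, hU2, ?_⟩
        · intro n hn; have := hU1 n hn; linarith
        · intro n hn
          have := hU3 (12 * n) (by omega)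
          rw [hr0] at this
          have e1 : (((12 * n : ℕ) : ℝ) * pr k (fun i => (a i : ℝ) / (2 * N))) =
              n * pr k (fun i => 6 * (a i : ℝ) / N) := by
            unfold pr
            rw [Finset.mul_sum, Finset.mul_sum]
            refine Finset.sum_congr rfl fun i _ => ?_
            push_cast; field_simp; ring
          rw [e1] at this
          rw [hdlN, hlogDN]
          push_cast at this
          linarith
  · have hA1' : v.nr A < 1 := lt_of_le_of_ne hAint hA1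
    by_cases hN0 : N = 0
    · -- good reduction
      have hD1 : v.nr (dsc A B) = 1 := (v.nr_eq_one_iff hD).2 (by rw [hN, hN0]; rfl)
      apply hzero
      intro k hk
      obtain ⟨U, hU1, hU2, hU3, -⟩ := st_KPG F v h2 h3 A B hD (by
        rw [hD1, v.nr_mul, v.nr_pow]
        exact mul_le_one₀ (v.nr_ofNat 6912) (pow_nonneg (v.nr_nonneg _) _)
          (pow_le_one₀ (v.nr_nonneg _) hAint)) _ _ (hgk k hk)
      refine ⟨U, hU1, hU2, fun n hn => ?_⟩
      have := hU3 (12 * n) (by omega)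
      rw [hD1, Real.log_one, mul_zero] at this
      exact this
    · -- additive reduction
      have hDlt : v.nr (dsc A B) < 1 := by
        rw [v.nr_lt_one_iff hD, hN]
        exact_mod_cast Nat.one_le_iff_ne_zero.2 hN0
      have hBlt : v.nr B < 1 := by
        have h27' : v.nr (27 : F) = 1 := (v.nr_eq_one_iff (by norm_num)).2 h27
        have e1 : 27 * B ^ 2 = dsc A B + -(4 * A ^ 3) := by unfold dsc; ring
        have e2 : v.nr (27 * B ^ 2) < 1 := by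
          rw [e1]
          refine lt_of_le_of_lt (v.nr_add_le _ _) (max_lt hDlt ?_)
          rw [v.nr_neg, v.nr_mul, v.nr_pow]
          calc v.nr 4 * v.nr A ^ 3 ≤ 1 * v.nr A ^ 3 :=
                mul_le_mul_of_nonneg_right (v.nr_ofNat 4) (pow_nonneg (v.nr_nonneg _) _)
            _ = v.nr A ^ 3 := one_mul _
            _ < 1 := pow_lt_one₀ (v.nr_nonneg _) hA1' (by norm_num)
        rw [v.nr_mul, h27', one_mul, v.nr_pow] at e2
        by_contra hcon
        push Not at hcon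
        exact absurd (one_le_pow₀ hcon (n := 2)) (not_le.2 e2)
      apply hzero
      intro k hk
      have hx12 : ∀ n : ℕ, 1 ≤ n → 1 ≤ v.nr (u ^ 2 * x₀ ((12 * n) • k)) :=
        st_KAD F v h2 h3 A B hD hA1' hBlt hmin _ _ (hgk k hk)
      by_cases hj : v.nr (6912 * A ^ 3) ≤ v.nr (dsc A B)
      · obtain ⟨U, hU1, hU2, -, hU4⟩ := st_KPG F v h2 h3 A B hD hj _ _ (hgk k hk)
        exact ⟨U, hU1, hU2, fun n hn => hU4 (12 * n) (by omega) (hx12 n hn)⟩
      · push Not at hj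
        have hA0 : A ≠ 0 := by
          intro h
          rw [h] at hj
          simp only [ne_eq, OfNat.ofNat_ne_zero, not_false_eq_true, zero_pow, mul_zero,
            v.nr_zero] at hj
          exact absurd (v.nr_nonneg _) (not_le.2 hj)
        have hne : 6912 * A ^ 3 ≠ 0 := mul_ne_zero (by norm_num) (pow_ne_zero _ hA0)
        have hord : v.ord (6912 * A ^ 3 / dsc A B) < 0 := by
          rw [v.nr_of_ne hne, v.nr_of_ne hD, zpow_lt_zpow_iff_right₀ v.one_lt_q] at hj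
          rw [v.ord_div hne hD]; omega
        obtain ⟨N', hN'⟩ : ∃ N' : ℕ, v.ord (6912 * A ^ 3 / dsc A B) = -(N' : ℤ) :=
          ⟨(-(v.ord (6912 * A ^ 3 / dsc A B))).toNat, by
            rw [Int.toNat_of_nonneg (by omega)]; ring⟩
        have hN1 : 1 ≤ N' := by omega
        obtain ⟨r, a, -, hUk⟩ := hPM F v N' hN1 A B hD hN' m _ _ hg
        obtain ⟨U, hU1, hU2, -, hU4⟩ := hUk k hk
        exact ⟨U, hU1, hU2, fun n hn => hU4 h2 h3 hA1' (12 * n) (by omega) (hx12 n hn)⟩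

end Pool.Agent.Helper54.LM
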