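import Pool.Agent.Helper54.LM.Defs
import Pool.Agent.Helper95.LK.KPM
import Pool.Agent.Helper33.LK.KPA

/-!
# Several independent points: multiplicative places (MP_9a3c31_nt)

Port of `Pool.Agent.Helper95.LK.KPM` to lattices of points.
-/

open Filter Topology

namespace Pool.Agent.Helper54.LM

open Pool.Agent.Helper42.LS Pool.Agent.Helper42.LK

/-- pairing of a multiple -/
theorem lpm_pr_nsmul {m : ℕ} (n : ℕ) (k : Fin m → ℤ) (t : Fin m → ℝ) :
    pr (n • k) t = n * pr k t := by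
  unfold pr
  rw [Finset.mul_sum]
  refine Finset.sum_congr rfl fun i _ => ?_
  simp only [Pi.smul_apply, nsmul_eq_mul]
  push_cast
  ring

/-- pairing of a basis vector -/
theorem lpm_pr_single {m : ℕ} (i : Fin m) (t : Fin m → ℝ) :
    pr (Pi.single i 1) t = t i := by
  classical
  unfold pr
  rw [Finset.sum_eq_single i]
  · simp
  · intro j _ hj
    simp [Pi.single_eq_of_ne hj]
  · intro h
    exact absurd (Finset.mem_univ i) h

theorem lpm_nsmul_ne {m : ℕ} {n : ℕ} {k : Fin m → ℤ} (hn : 1 ≤ n) (hk : k ≠ 0) : n • k ≠ 0 := by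
  intro h
  apply hk
  funext i
  have h1 := congrFun h i
  simp only [Pi.smul_apply, nsmul_eq_mul, Pi.zero_apply, mul_eq_zero] at h1
  rcases h1 with h1 | h1
  · exfalso
    have : n = 0 := by exact_mod_cast h1
    omega
  · exact h1

/-- if both values vanish -/
theorem lpm_zero {m : ℕ} (N : ℕ) (f : (Fin m → ℤ) → ℝ)
    (hb : ∀ k, 0 ≤ f k ∧ f k ≤ (N : ℝ) / 2) (hneg : ∀ k, f (-k) = f k)
    (hadd : ∀ k l, k ≠ 0 → l ≠ 0 → k ≠ l → k ≠ -l → (0 < f k ∨ 0 < f l) →
      (f (k + l) = |f k - f l| ∧ f (k - l) = min (f k + f l) (N - (f k + f l))) ∨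
      (f (k - l) = |f k - f l| ∧ f (k + l) = min (f k + f l) (N - (f k + f l))))
    (a b : Fin m → ℤ) (ha : a ≠ 0) (hb0 : b ≠ 0) (hab : a ≠ -b)
    (hfa : f a = 0) (hfb : f b = 0) : f (a + b) = 0 := by
  by_contra hne
  have hpos : 0 < f (a + b) := lt_of_le_of_ne (hb _).1 (Ne.symm hne)
  by_cases h1 : a + b = -b
  · apply hne
    rw [h1, hneg, hfb]
  · have h2 := hadd (a + b) b (fun h => hab (eq_neg_of_add_eq_zero_left h)) hb0
      (fun h => ha (by simpa using h)) h1 (Or.inl hpos)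
    have hmin : min (f (a + b)) (N - f (a + b)) = f (a + b) :=
      min_eq_left (by linarith [(hb (a + b)).2])
    rw [add_sub_cancel_right, hfa, hfb, sub_zero, add_zero, hmin, abs_of_nonneg hpos.le] at h2
    rcases h2 with ⟨_, h3⟩ | ⟨h3, _⟩ <;> linarith

/-- exact folded homomorphisms with half-integral values -/
theorem lpm_fold (hFT : ST_LFT) {m : ℕ} (N : ℕ) (hN : 1 ≤ N) (f : (Fin m → ℤ) → ℝ)
    (hb : ∀ k, 0 ≤ f k ∧ f k ≤ (N : ℝ) / 2) (h0 : f 0 = 0) (hneg : ∀ k, f (-k) = f k)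
    (hint : ∀ k, ∃ a : ℤ, 2 * f k = a)
    (hdbl : ∀ k, k ≠ 0 → f (k + k) = min (2 * f k) (N - 2 * f k))
    (hadd : ∀ k l, k ≠ 0 → l ≠ 0 → k ≠ l → k ≠ -l → (0 < f k ∨ 0 < f l) →
      (f (k + l) = |f k - f l| ∧ f (k - l) = min (f k + f l) (N - (f k + f l))) ∨
      (f (k - l) = |f k - f l| ∧ f (k + l) = min (f k + f l) (N - (f k + f l)))) :
    ∃ a : Fin m → ℤ, ∀ k, f k = N * nd (pr k (fun i => (a i : ℝ) / (2 * N))) := by
  have hNR : (0 : ℝ) < N := by exact_mod_cast hN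
  obtain ⟨K, _, hK⟩ := hFT m
  obtain ⟨τ, hτ⟩ := hK N 0 hNR le_rfl f hb h0 hneg (by
    intro a b
    have hmn : ∀ k, min (f k) (N - f k) = f k := fun k =>
      min_eq_left (by linarith [(hb k).2])
    by_cases ha : a = 0
    · left
      rw [ha, zero_sub, zero_add, hneg, h0, zero_sub, abs_neg, abs_of_nonneg (hb b).1, zero_add,
        hmn b]
      simp
    by_cases hb0 : b = 0
    · left
      rw [hb0, sub_zero, add_zero, h0, sub_zero, abs_of_nonneg (hb a).1, add_zero, hmn a]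
      simp
    by_cases hab : a = b
    · left
      rw [← hab, sub_self, sub_self, h0, hdbl a ha, ← two_mul]
      simp
    by_cases hab' : a = -b
    · right
      have e1 : f b = f a := by rw [hab', hneg]
      have e2 : a - b = a + a := by
        rw [show b = -a by rw [hab', neg_neg]]
        abel
      rw [e1, e2, hdbl a ha, show a + b = 0 by rw [hab']; abel, h0, ← two_mul]
      simp
    by_cases hpos : 0 < f a ∨ 0 < f b
    · rcases hadd a b ha hb0 hab hab' hpos with ⟨h1, h2⟩ | ⟨h1, h2⟩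
      · right
        rw [h1, h2]
        simp
      · left
        rw [h1, h2]
        simp
    · push Not at hpos
      have ha0 : f a = 0 := le_antisymm hpos.1 (hb a).1
      have hb1 : f b = 0 := le_antisymm hpos.2 (hb b).1
      have h1 := lpm_zero N f hb hneg hadd a b ha hb0 hab' ha0 hb1
      have h2 := lpm_zero N f hb hneg hadd a (-b) ha (neg_ne_zero.2 hb0)
        (by rw [neg_neg]; exact hab) ha0 (by rw [hneg, hb1])
      rw [← sub_eq_add_neg] at h2
      left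
      rw [h2, h1, ha0, hb1, add_zero, sub_zero, min_eq_left (by linarith)]
      simp)
  have hf : ∀ k, f k = N * nd (pr k τ) := by
    intro k
    have h1 := hτ k
    rw [mul_zero] at h1
    exact sub_eq_zero.1 (abs_eq_zero.1 (le_antisymm h1 (abs_nonneg _)))
  have hτi : ∀ i, ∃ a : ℤ, τ i = (a : ℝ) / (2 * N) := by
    intro i
    classical
    have h1 := hf (Pi.single i 1)
    rw [lpm_pr_single] at h1
    obtain ⟨b, hb1⟩ := hint (Pi.single i 1)
    have h2 : (τ i : ℝ) = (⌊τ i⌋ : ℝ) + Int.fract (τ i) := (Int.floor_add_fract _).symm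
    unfold nd at h1
    rcases le_total (Int.fract (τ i)) (1 - Int.fract (τ i)) with h | h
    · rw [min_eq_left h] at h1
      refine ⟨2 * N * ⌊τ i⌋ + b, ?_⟩
      rw [eq_div_iff (by positivity)]
      push_cast
      rw [← hb1, h1]
      calc τ i * (2 * N) = ((⌊τ i⌋ : ℝ) + Int.fract (τ i)) * (2 * N) := by rw [← h2]
        _ = _ := by ring
    · rw [min_eq_right h] at h1
      refine ⟨2 * N * ⌊τ i⌋ + 2 * N - b, ?_⟩
      rw [eq_div_iff (by positivity)]
      push_cast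
      rw [← hb1, h1]
      calc τ i * (2 * N) = ((⌊τ i⌋ : ℝ) + Int.fract (τ i)) * (2 * N) := by rw [← h2]
        _ = _ := by ring
  choose a ha using hτi
  refine ⟨a, fun k => ?_⟩
  rw [hf k]
  congr 3
  funext i
  exact ha i

theorem st_LPM (hFT : ST_LFT) : ST_LPM := by
  intro F _ _ μ N hN A B hD hv m x y hG
  have hNz : (1 : ℤ) ≤ N := by exact_mod_cast hN
  have hNR : (0 : ℝ) < N := by exact_mod_cast hN
  have hlogp : 0 < Real.log μ.q := μ.log_q_pos
  have hA : A ≠ 0 := by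
    intro h0
    rw [h0] at hv
    rw [show (6912 : F) * 0 ^ 3 / dsc 0 B = 0 by simp, μ.ord_zero] at hv
    omega
  obtain ⟨v2, hv2⟩ : ∃ v, kpdEq μ v (2 : F) := ⟨_, kpd_eq_self (by norm_num)⟩
  obtain ⟨v3, hv3⟩ : ∃ v, kpdEq μ v (3 : F) := ⟨_, kpd_eq_self (by norm_num)⟩
  obtain ⟨vA, hvA⟩ : ∃ v, kpdEq μ v A := ⟨_, kpd_eq_self hA⟩
  obtain ⟨vD, hvD⟩ : ∃ v, kpdEq μ v (dsc A B) := ⟨_, kpd_eq_self hD⟩
  have hv20 : 0 ≤ v2 := by
    rw [← hv2.2]
    exact μ.ord_ofNat 2
  have hv30 : 0 ≤ v3 := by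
    rw [← hv3.2]
    exact μ.ord_ofNat 3
  have h4 : kpdEq μ (2 * v2) (4 : F) := by
    have := kpd_eq_sq hv2
    norm_num at this
    exact this
  have h8 : kpdEq μ (3 * v2) (8 : F) := by
    have := kpd_eq_mul h4 hv2
    norm_num at this
    exact kpd_eq_cast this (by ring)
  have h9 : kpdEq μ (2 * v3) (9 : F) := by
    have := kpd_eq_sq hv3
    norm_num at this
    exact this
  have h27 : kpdEq μ (3 * v3) (27 : F) := by
    have := kpd_eq_mul h9 hv3
    norm_num at this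
    exact kpd_eq_cast this (by ring)
  have h16 : kpdEq μ (4 * v2) (16 : F) := by
    have := kpd_eq_mul h4 h4
    norm_num at this
    exact kpd_eq_cast this (by ring)
  have h18 : kpdEq μ (v2 + 2 * v3) (18 : F) := by
    have := kpd_eq_mul hv2 h9
    norm_num at this
    exact this
  have h6912 : kpdEq μ (8 * v2 + 3 * v3) (6912 : F) := by
    have := kpd_eq_mul (kpd_eq_mul h16 h16) h27
    norm_num at this
    exact kpd_eq_cast this (by ring)
  have hA2 : kpdEq μ (2 * vA) (A ^ 2) := kpd_eq_sq hvA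
  have hA3 : kpdEq μ (3 * vA) (A ^ 3) := by
    have := kpd_eq_mul hA2 hvA
    rw [show A ^ 2 * A = A ^ 3 by ring] at this
    exact kpd_eq_cast this (by ring)
  have hj : 8 * v2 + 3 * v3 + 3 * vA - vD = -(N : ℤ) := by
    rw [μ.ord_div (mul_ne_zero h6912.1 hA3.1) hD, hvD.2, (kpd_eq_mul h6912 hA3).2] at hv
    exact hv
  have h4A3 : kpdEq μ (2 * v2 + 3 * vA) (4 * A ^ 3) := kpd_eq_mul h4 hA3
  have h27B2 : kpdEq μ (2 * v2 + 3 * vA) (27 * B ^ 2) := by
    have h := kpd_eq_add (kpd_eq_neg h4A3) (kpd_ge_mono (kpd_ge_of_eq hvD) (by omega))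
    rw [show -(4 * A ^ 3) + dsc A B = 27 * B ^ 2 by unfold dsc; ring] at h
    exact h
  have hB : B ≠ 0 := by
    intro h0
    exact h27B2.1 (by rw [h0]; ring)
  obtain ⟨vB, hvB⟩ : ∃ v, kpdEq μ v B := ⟨_, kpd_eq_self hB⟩
  have hAB : 3 * v3 + 2 * vB = 2 * v2 + 3 * vA :=
    (kpd_eq_unique (kpd_eq_mul h27 (kpd_eq_sq hvB)) h27B2).symm
  -- the shift
  set x0 : F := -3 * B / (2 * A) with hx0
  set c0 : F := 3 * x0 with hc0
  set d0 : F := dsc A B / (4 * A ^ 2) with hd0
  set e0 : F := -(B * dsc A B) / (8 * A ^ 3) with he0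
  set r : ℤ := v2 + 2 * v3 + vB - vA with hr
  have hvx0 : kpdEq μ (v3 + vB - v2 - vA) x0 := by
    have h : kpdEq μ (v3 + vB) (x0 * (2 * A)) := by
      rw [hx0, show -3 * B / (2 * A) * (2 * A) = -(3 * B) by field_simp]
      exact kpd_eq_neg (kpd_eq_mul hv3 hvB)
    exact kpd_eq_cast (kpd_eq_of_mul h (kpd_eq_mul hv2 hvA)) (by ring)
  have hvc0 : kpdEq μ r (4 * c0) := by
    refine kpd_eq_cast (kpd_eq_mul h4 (kpd_eq_mul hv3 hvx0)) (by rw [hr]; ring)
  have hvd0 : kpdEq μ (vD - 2 * v2 - 2 * vA) d0 := by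
    have h : kpdEq μ vD (d0 * (4 * A ^ 2)) := by
      rw [hd0, div_mul_cancel₀ _ (mul_ne_zero (by norm_num) hA2.1)]
      exact hvD
    exact kpd_eq_cast (kpd_eq_of_mul h (kpd_eq_mul h4 hA2)) (by ring)
  have hve0 : kpdEq μ (vB + vD - 3 * v2 - 3 * vA) e0 := by
    have h : kpdEq μ (vB + vD) (e0 * (8 * A ^ 3)) := by
      rw [he0, div_mul_cancel₀ _ (mul_ne_zero (by norm_num) hA3.1)]
      exact kpd_eq_neg (kpd_eq_mul hvB hvD)
    exact kpd_eq_cast (kpd_eq_of_mul h (kpd_eq_mul h8 hA3)) (by ring)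
  have hshift : ∀ X : F, X ^ 3 + c0 * X ^ 2 + d0 * X + e0 = (X + x0) ^ 3 + A * (X + x0) + B := by
    intro X
    have h1 : d0 = 3 * x0 ^ 2 + A := by
      rw [hd0, hx0]
      unfold dsc
      field_simp
      ring
    have h2 : e0 = x0 ^ 3 + A * x0 + B := by
      rw [he0, hx0]
      unfold dsc
      field_simp
      ring
    rw [h1, h2, hc0]
    ring
  -- the scaling
  obtain ⟨ϖ, hp0, hϖ, -⟩ := μ.exists_unif
  set π : F := ϖ ^ (-r) with hπ
  have hπ0 : π ≠ 0 := zpow_ne_zero _ hp0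
  have hvπ : kpdEq μ (-r) π := by
    refine ⟨hπ0, ?_⟩
    rw [hπ, μ.ord_zpow, hϖ, mul_one]
  set c : F := c0 * π with hc
  set d : F := d0 * π ^ 2 with hd
  set e : F := e0 * π ^ 3 with he
  have hπ2 : kpdEq μ (2 * -r) (π ^ 2) := kpd_eq_sq hvπ
  have hπ3 : kpdEq μ (3 * -r) (π ^ 3) := by
    have := kpd_eq_mul hπ2 hvπ
    rw [show π ^ 2 * π = π ^ 3 by ring] at this
    exact kpd_eq_cast this (by ring)
  have hcn : μ.nr (4 * c) = 1 := by
    have h := kpd_eq_mul hvc0 hvπ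
    rw [show 4 * c0 * π = 4 * c by rw [hc]; ring] at h
    rw [kpd_nr_of_eq h]
    simp
  have hdn : μ.nr d ≤ μ.q ^ (-(N : ℤ)) := by
    rw [kpd_nr_le]
    exact kpd_ge_mono (kpd_ge_of_eq (kpd_eq_mul hvd0 hπ2)) (by rw [hr]; omega)
  have hen : μ.nr e = μ.q ^ (-(N : ℤ)) := by
    rw [kpd_nr_iff]
    exact kpd_eq_cast (kpd_eq_mul hve0 hπ3) (by rw [hr]; omega)
  set X : (Fin m → ℤ) → F := fun k => (x k - x0) * π with hX
  have hGX : ∀ k, X k ^ 3 + c * X k ^ 2 + d * X k + e = cu A B (x k) * π ^ 3 := by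
    intro k
    have h := hshift (x k - x0)
    rw [sub_add_cancel] at h
    have h2 : X k ^ 3 + c * X k ^ 2 + d * X k + e =
        ((x k - x0) ^ 3 + c0 * (x k - x0) ^ 2 + d0 * (x k - x0) + e0) * π ^ 3 := by
      rw [hc, hd, he]
      simp only [hX]
      ring
    rw [h2, h]
    unfold cu
    ring
  have hcurve : ∀ k, k ≠ 0 → y k ^ 2 = cu A B (x k) := by
    intro k hk
    have := hG.curve k hk
    rw [this]
    unfold cu
    ring
  have hcune : ∀ k, k ≠ 0 → cu A B (x k) ≠ 0 := by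
    intro k hk
    rw [← hcurve k hk]
    exact pow_ne_zero 2 (hG.yne k hk)
  have hGne : ∀ k, k ≠ 0 → X k ^ 3 + c * X k ^ 2 + d * X k + e ≠ 0 := by
    intro k hk
    rw [hGX k]
    exact mul_ne_zero (hcune k hk) (pow_ne_zero 3 hπ0)
  have hcurve0 : ∀ k, k ≠ 0 →
      y k ^ 2 = (x k - x0) ^ 3 + c0 * (x k - x0) ^ 2 + d0 * (x k - x0) + e0 := by
    intro k hk
    rw [hshift (x k - x0), sub_add_cancel, hcurve k hk]
    rfl
  have hsubx : ∀ k l, k ≠ 0 → l ≠ 0 → k ≠ l → k ≠ -l →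
      x (k - l) = ((y k + y l) / (x k - x l)) ^ 2 - 0 - x k - x l := by
    intro k l hk hl h1 h2
    have h3 := hG.addx k (-l) hk (neg_ne_zero.2 hl) h2 (by rw [neg_neg]; exact h1)
    rw [hG.negx l hl, hG.negy l hl, sub_neg_eq_add] at h3
    rw [sub_eq_add_neg]
    exact h3
  have hSP : ∀ k l, k ≠ 0 → l ≠ 0 → k ≠ l → k ≠ -l →
      X k ≠ X l ∧
      (X (k + l) + X (k - l)) * (X k - X l) ^ 2 =
        2 * ((X k + X l) * (d + X k * X l) + 2 * c * X k * X l + 2 * e) ∧
      X (k + l) * X (k - l) * (X k - X l) ^ 2 =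
        (X k * X l - d) ^ 2 - 4 * e * (X k + X l + c) := by
    intro k l hk hl h12 h21
    have hne := hG.xne k l hk hl h12 h21
    have h := kpm_sp c0 d0 e0 (x k - x0) (x l - x0) (x (k + l) - x0) (x (k - l) - x0) (y k) (y l)
      (fun h => hne (sub_left_inj.1 h)) (hcurve0 k hk) (hcurve0 l hl)
      (by rw [hG.addx k l hk hl h12 h21, show x k - x0 - (x l - x0) = x k - x l by ring, hc0]; ring)
      (by rw [hsubx k l hk hl h12 h21, show x k - x0 - (x l - x0) = x k - x l by ring, hc0]; ring)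
    refine ⟨fun h => hne ?_, ?_, ?_⟩
    · exact sub_left_inj.1 (mul_right_cancel₀ hπ0 h)
    · have h2 : (X (k + l) + X (k - l)) * (X k - X l) ^ 2 =
          ((x (k + l) - x0 + (x (k - l) - x0)) * (x k - x0 - (x l - x0)) ^ 2) * π ^ 3 := by
        simp only [hX]
        ring
      rw [h2, h.1, hc, hd, he]
      simp only [hX]
      ring
    · have h2 : X (k + l) * X (k - l) * (X k - X l) ^ 2 =
          ((x (k + l) - x0) * (x (k - l) - x0) * (x k - x0 - (x l - x0)) ^ 2) * π ^ 4 := by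
        simp only [hX]
        ring
      rw [h2, h.2, hc, hd, he]
      simp only [hX]
      ring
  have hdbl : ∀ k, k ≠ 0 →
      X (k + k) * (4 * (X k ^ 3 + c * X k ^ 2 + d * X k + e)) =
        (X k ^ 2 - d) ^ 2 - 4 * e * (2 * X k + c) := by
    intro k hk
    have hd1 : d0 = 3 * x0 ^ 2 + A := by
      have h1 := hshift 1
      have h3 := hshift 0
      simp only [hc0] at h1 h3
      linear_combination h1 - h3
    have h := kpm_dbl c0 d0 e0 (x k - x0) (x (k + k) - x0) (y k) (hG.yne k hk) (hcurve0 k hk)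
      (by
        rw [hG.dblx k hk, show 3 * (x k - x0) ^ 2 + 2 * c0 * (x k - x0) + d0
          = 3 * x k ^ 2 + 2 * 0 * x k + A by rw [hd1, hc0]; ring, hc0]
        ring)
    have h2 : X (k + k) * (4 * (X k ^ 3 + c * X k ^ 2 + d * X k + e)) =
        ((x (k + k) - x0) * (4 * ((x k - x0) ^ 3 + c0 * (x k - x0) ^ 2 + d0 * (x k - x0) + e0))) *
          π ^ 4 := by
      rw [hc, hd, he]
      simp only [hX]
      ring
    rw [h2, h, hc, hd, he]
    simp only [hX]
    ring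
  have hPDk : ∀ k, k ≠ 0 →
      alpK μ N (X (k + k)) = min (2 * alpK μ N (X k)) (N - 2 * alpK μ N (X k)) ∧
      4 * upK μ N (X k) = upK μ N (X (k + k)) +
        Real.log (μ.nr (4 * (X k ^ 3 + c * X k ^ 2 + d * X k + e))) := fun k hk =>
    st_KPD F μ N hN c d e hcn hdn hen (X k) (X (k + k)) (hGne k hk) (hdbl k hk)
  have hPAk : ∀ k l, k ≠ 0 → l ≠ 0 → k ≠ l → k ≠ -l →
      (0 < alpK μ N (X k) ∨ 0 < alpK μ N (X l)) →
      (alpK μ N (X (k + l)) = |alpK μ N (X k) - alpK μ N (X l)| ∧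
        alpK μ N (X (k - l)) = min (alpK μ N (X k) + alpK μ N (X l))
          (N - (alpK μ N (X k) + alpK μ N (X l)))) ∨
      (alpK μ N (X (k - l)) = |alpK μ N (X k) - alpK μ N (X l)| ∧
        alpK μ N (X (k + l)) = min (alpK μ N (X k) + alpK μ N (X l))
          (N - (alpK μ N (X k) + alpK μ N (X l)))) := fun k l hk hl h12 h21 h =>
    st_KPA F μ N hN c d e hcn hdn hen (X k) (X l) (X (k + l)) (X (k - l))
      (hSP k l hk hl h12 h21).1 (hSP k l hk hl h12 h21).2.1 (hSP k l hk hl h12 h21).2.2 h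
  -- the folded homomorphism
  classical
  set f : (Fin m → ℤ) → ℝ := fun k => if k = 0 then 0 else alpK μ N (X k) with hf
  have hf0 : f 0 = 0 := by simp [hf]
  have hfk : ∀ k, k ≠ 0 → f k = alpK μ N (X k) := fun k hk => by simp [hf, hk]
  have hfb : ∀ k, 0 ≤ f k ∧ f k ≤ (N : ℝ) / 2 := by
    intro k
    by_cases hk : k = 0
    · rw [hk, hf0]
      constructor
      · exact le_rfl
      · positivity
    · rw [hfk k hk]
      exact kpm_alp_bounds μ N (X k)
  have hfneg : ∀ k, f (-k) = f k := by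
    intro k
    by_cases hk : k = 0
    · rw [hk, neg_zero]
    · rw [hfk k hk, hfk (-k) (neg_ne_zero.2 hk)]
      simp only [hX]
      rw [hG.negx k hk]
  have hfint : ∀ k, ∃ a : ℤ, 2 * f k = a := by
    intro k
    by_cases hk : k = 0
    · exact ⟨0, by rw [hk, hf0]; simp⟩
    · rw [hfk k hk]
      exact kpm_alp_int μ N (X k)
  have hkk : ∀ k : Fin m → ℤ, k ≠ 0 → k + k ≠ 0 := by
    intro k hk
    have := lpm_nsmul_ne (n := 2) (by norm_num) hk
    rwa [two_nsmul] at this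
  obtain ⟨a, ha⟩ := lpm_fold hFT N hN f hfb hf0 hfneg hfint
    (by
      intro k hk
      rw [hfk (k + k) (hkk k hk), hfk k hk]
      exact (hPDk k hk).1)
    (by
      intro k l hk hl h12 h21 hpos
      have h1 : k + l ≠ 0 := fun h => h21 (eq_neg_of_add_eq_zero_left h)
      have h2 : k - l ≠ 0 := sub_ne_zero.2 h12
      rw [hfk k hk, hfk l hl, hfk _ h1, hfk _ h2]
      rw [hfk k hk, hfk l hl] at hpos
      exact hPAk k l hk hl h12 h21 hpos)
  refine ⟨r, a, ?_, fun k hk => ?_⟩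
  · rw [(kpd_eq_mul h16 hvD).2, hr]
    omega
  have hnk : ∀ n : ℕ, 1 ≤ n → n • k ≠ 0 := fun n hn => lpm_nsmul_ne hn hk
  have hb := fun k => kpm_alp_bounds μ N (X k)
  refine ⟨fun n => upK μ N (X (n • k)) - r * Real.log μ.q, ?_, ?_, ?_, ?_⟩
  · intro n hn
    have h := (hPDk (n • k) (hnk n hn)).2
    rw [hGX (n • k)] at h
    have h4cu : 4 * cu A B (x (n • k)) ≠ 0 := mul_ne_zero (by norm_num) (hcune _ (hnk n hn))
    obtain ⟨g, hg⟩ : ∃ g, kpdEq μ g (4 * cu A B (x (n • k))) := ⟨_, kpd_eq_self h4cu⟩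
    have hg2 := kpd_eq_mul hg hπ3
    rw [show 4 * cu A B (x (n • k)) * π ^ 3 = 4 * (cu A B (x (n • k)) * π ^ 3) by ring] at hg2
    rw [kpd_log_nr hg2] at h
    rw [kpd_log_nr hg]
    have e1 : (2 * n) • k = n • k + n • k := by
      rw [two_mul, add_nsmul]
    push_cast at h
    simp only [e1]
    linarith
  · refine ⟨Real.log (max (μ.q ^ r * max 1 (μ.nr x0)) 1) - r * Real.log μ.q, fun n hn => ?_⟩
    have hpr : 0 < μ.q ^ r := by
      exact zpow_pos μ.q_pos _
    have hup : upK μ N (X (n • k)) ≤ Real.log (max (μ.nr (X (n • k))) 1) := by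
      unfold upK
      have h1 := hb (n • k)
      have : 0 ≤ alpK μ N (X (n • k)) * (N - alpK μ N (X (n • k))) / N * Real.log μ.q := by
        have h2 : 0 ≤ (N : ℝ) - alpK μ N (X (n • k)) := by linarith [h1.2]
        have h3 := h1.1
        positivity
      linarith
    have hnrX : μ.nr (X (n • k)) = μ.nr (x (n • k) - x0) * μ.q ^ r := by
      have : μ.nr (X (n • k)) = μ.nr (x (n • k) - x0) * μ.nr π := by
        simp only [hX]
        rw [μ.nr_mul]
      rw [this, kpd_nr_of_eq hvπ, neg_neg]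
    have hsub : μ.nr (x (n • k) - x0) ≤ max (μ.nr (x (n • k))) (μ.nr x0) := by
      exact μ.nr_sub_le _ _
    have hmax : max (μ.nr (X (n • k))) 1 ≤
        max (μ.nr (x (n • k))) 1 * max (μ.q ^ r * max 1 (μ.nr x0)) 1 := by
      have hm1 : 1 ≤ max (μ.nr (x (n • k))) 1 := le_max_right _ _
      have hm2 : 1 ≤ max (μ.q ^ r * max 1 (μ.nr x0)) 1 := le_max_right _ _
      refine max_le ?_ ?_
      · rw [hnrX]
        have h1 : μ.nr (x (n • k) - x0) ≤ max (μ.nr (x (n • k))) 1 * max 1 (μ.nr x0) := by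
          refine hsub.trans (max_le ?_ ?_)
          · calc μ.nr (x (n • k)) ≤ max (μ.nr (x (n • k))) 1 := le_max_left _ _
              _ = max (μ.nr (x (n • k))) 1 * 1 := (mul_one _).symm
              _ ≤ _ := mul_le_mul_of_nonneg_left (le_max_left _ _) (by linarith)
          · calc μ.nr x0 ≤ max 1 (μ.nr x0) := le_max_right _ _
              _ = 1 * max 1 (μ.nr x0) := (one_mul _).symm
              _ ≤ _ := mul_le_mul_of_nonneg_right hm1 (le_trans zero_le_one (le_max_left _ _))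
        calc μ.nr (x (n • k) - x0) * μ.q ^ r
            ≤ (max (μ.nr (x (n • k))) 1 * max 1 (μ.nr x0)) * μ.q ^ r :=
              mul_le_mul_of_nonneg_right h1 hpr.le
          _ = max (μ.nr (x (n • k))) 1 * (μ.q ^ r * max 1 (μ.nr x0)) := by ring
          _ ≤ _ := mul_le_mul_of_nonneg_left (le_max_left _ _) (by linarith)
      · nlinarith
    have hlog := Real.log_le_log (lt_of_lt_of_le one_pos (le_max_right _ _)) hmax
    rw [Real.log_mul (by positivity) (by positivity)] at hlog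
    simp only
    linarith
  · intro n hn
    have hfn := ha (n • k)
    rw [hfk _ (hnk n hn), lpm_pr_nsmul] at hfn
    have hND : alpK μ N (X (n • k)) * (N - alpK μ N (X (n • k))) / N =
        N * (1 / 6 - B2 (n * pr k (fun i => (a i : ℝ) / (2 * N)))) := by
      rw [hfn, ← kpm_nd_b2]
      field_simp
    have h0 : 0 ≤ Real.log (max (μ.nr (X (n • k))) 1) := Real.log_nonneg (le_max_right _ _)
    simp only
    unfold upK
    rw [hND]
    linarith
  · intro h52 h53 hA1 n hn hxk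
    have hz2 : v2 = 0 := by rw [← hv2.2]; exact h52
    have hz3 : v3 = 0 := by rw [← hv3.2]; exact h53
    have hvA1 : 1 ≤ vA := by
      by_contra hcon
      have h1 : (1 : ℝ) ≤ μ.nr A := by
        rw [kpd_nr_of_eq hvA]
        exact one_le_zpow₀ μ.one_lt_q.le (by omega)
      linarith
    have hr1 : 1 ≤ r := by rw [hr]; omega
    have hx0ne : x (n • k) ≠ 0 := by
      intro h0
      rw [h0, μ.nr_zero] at hxk
      linarith
    obtain ⟨w, hw⟩ : ∃ w, kpdEq μ w (x (n • k)) := ⟨_, kpd_eq_self hx0ne⟩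
    have hw0 : w ≤ 0 := by
      by_contra hcon
      rw [kpd_nr_of_eq hw] at hxk
      have : μ.q ^ (-w) < 1 := zpow_lt_one_of_neg₀ μ.one_lt_q (by omega)
      linarith
    have hXv : kpdEq μ (w + -r) (X (n • k)) :=
      kpd_eq_mul (kpd_eq_sub hw (kpd_ge_mono (kpd_ge_of_eq hvx0) (by omega))) hvπ
    have halp : alpK μ N (X (n • k)) = 0 := kpd_alp_nonpos hXv (by omega)
    simp only
    unfold upK
    rw [halp, kpd_logmax_neg hXv (by omega)]
    push_cast
    have hwR : (w : ℝ) ≤ 0 := by exact_mod_cast hw0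
    have h1 : -(w : ℝ) * Real.log μ.q ≥ 0 := mul_nonneg (by linarith) hlogp.le
    have h2 : -((w : ℝ) + -(r : ℝ)) * Real.log μ.q - 0 * ((N : ℝ) - 0) / N * Real.log μ.q
      - r * Real.log μ.q = -(w : ℝ) * Real.log μ.q := by ring
    linarith

end Pool.Agent.Helper54.LM
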